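import Pool.Agent.TH317.CC.Riem
import Pool.Agent.TH370.CCA1
import Pool.Agent.TH576.CC_A4

/-!
# From a contraction through curves of length `< L` to polygon chains of length `< L1 < L`
-/

set_option autoImplicit false
set_option linter.unusedSectionVars false

universe u

namespace Pool.Agent.TH317.CC.H480S

open Pool.Agent.TH317.CC Pool.Agent.TH317.CC.H370A

variable {M : Type u} [MetricSpace M]

/-! ### arcs -/

/-- `l` is an arc from `a` to `b` (without `b`), steps at most `s`, length at most `w` -/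
def Arc (s : ℝ) (a b : M) (l : List M) (w : ℝ) : Prop :=
  (l ++ [b]).head? = some a ∧ List.IsChain (fun x y => dist x y ≤ s) (l ++ [b]) ∧
    chl (l ++ [b]) ≤ w

lemma chl_nonneg (l : List M) : 0 ≤ chl l := by
  induction l with
  | nil => exact le_rfl
  | cons a l ih =>
    cases l with
    | nil => exact le_rfl
    | cons b l =>
      rw [chl_cons2]
      have := dist_nonneg (x := a) (y := b)
      linarith

/-- length of a concatenation -/
lemma chl_append (l1 : List M) (x : M) (l2 : List M) :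
    chl (l1 ++ x :: l2) = chl (l1 ++ [x]) + chl (x :: l2) := by
  induction l1 with
  | nil => simp [chl]
  | cons a l1 ih =>
    cases l1 with
    | nil => simp [chl_cons2, chl]
    | cons b l1 =>
      simp only [List.cons_append, chl_cons2] at ih ⊢
      rw [ih]; ring

lemma isChain_append_mid {R : M → M → Prop} (l1 : List M) (x : M) (l2 : List M) :
    List.IsChain R (l1 ++ x :: l2) ↔ List.IsChain R (l1 ++ [x]) ∧ List.IsChain R (x :: l2) := by
  induction l1 with
  | nil => simp
  | cons a l1 ih =>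
    cases l1 with
    | nil => simp
    | cons b l1 =>
      simp only [List.cons_append, List.isChain_cons_cons] at ih ⊢
      rw [ih]; tauto

lemma Arc.nil {s : ℝ} (a : M) : Arc s a a [] 0 := by
  refine ⟨rfl, List.isChain_singleton _, le_rfl⟩

lemma Arc.append {s : ℝ} {a b c : M} {l l' : List M} {w w' : ℝ} (h : Arc s a b l w)
    (h' : Arc s b c l' w') : Arc s a c (l ++ l') (w + w') := by
  obtain ⟨h1, h2, h3⟩ := h
  obtain ⟨h1', h2', h3'⟩ := h'
  obtain ⟨t, ht⟩ : ∃ t, l' ++ [c] = b :: t := by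
    cases hl : l' ++ [c] with
    | nil => simp at hl
    | cons x t =>
      rw [hl] at h1'
      simp only [List.head?_cons, Option.some.injEq] at h1'
      exact ⟨t, by rw [h1']⟩
  unfold Arc
  rw [List.append_assoc, ht]
  rw [ht] at h2' h3'
  refine ⟨?_, ?_, ?_⟩
  · cases l with
    | nil => simpa using h1
    | cons x l => simpa using h1
  · rw [isChain_append_mid]
    exact ⟨h2, h2'⟩
  · rw [chl_append]
    linarith

lemma Arc.mono {s s' : ℝ} {a b : M} {l : List M} {w w' : ℝ} (h : Arc s a b l w) (hs : s ≤ s')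
    (hw : w ≤ w') : Arc s' a b l w' :=
  ⟨h.1, h.2.1.imp (fun _ _ hxy => le_trans hxy hs), h.2.2.trans hw⟩

lemma Arc.single {s : ℝ} {a b : M} (h : dist a b ≤ s) : Arc s a b [a] (dist a b) := by
  refine ⟨rfl, ?_, ?_⟩
  · simpa using h
  · simp [chl]

lemma Arc.cl_eq {s : ℝ} {a : M} {l : List M} {w : ℝ} (h : Arc s a a l w) (hne : l ≠ []) :
    cl l = l ++ [a] := by
  cases l with
  | nil => exact absurd rfl hne
  | cons x l =>
    have : x = a := by simpa using h.1
    subst this
    rfl

lemma Arc.good {s r ℓ : ℝ} {S : Set M} {a : M} {l : List M} {w : ℝ} (h : Arc s a a l w)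
    (hne : l ≠ []) (hs : s ≤ r) (hw : w < ℓ) (hS : ∀ y ∈ l, y ∈ S) : Good r ℓ S l := by
  rw [good_iff, h.cl_eq hne]
  exact ⟨hne, h.2.1.imp (fun _ _ hxy => le_trans hxy hs), lt_of_le_of_lt h.2.2 hw, hS⟩

/-- moving the end point -/
lemma Arc.move_end {s : ℝ} {a b c : M} {l : List M} {w : ℝ} (h : Arc s a b l w) (hne : l ≠ []) :
    Arc (s + dist b c) a c l (w + dist b c) := by
  obtain ⟨h1, h2, h3⟩ := h
  obtain ⟨l', y, rfl⟩ := (List.eq_nil_or_concat' l).resolve_left hne
  have e1 : l' ++ [y] ++ [b] = l' ++ [y, b] := by simp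
  have e2 : l' ++ [y] ++ [c] = l' ++ [y, c] := by simp
  unfold Arc
  rw [e1] at h1 h2 h3
  rw [e2]
  rw [chl_snoc] at h3 ⊢
  have hd := dist_triangle y b c
  have hbc := dist_nonneg (x := b) (y := c)
  have h2' := (isChain_append_mid l' y [b]).mp h2
  refine ⟨?_, ?_, by linarith⟩
  · cases l' with
    | nil => simpa using h1
    | cons x l' => simpa using h1
  · rw [isChain_append_mid]
    refine ⟨h2'.1.imp (fun _ _ hxy => by linarith), ?_⟩
    have h3' : dist y b ≤ s := by simpa using h2'.2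
    simp only [List.isChain_cons_cons, List.isChain_singleton, and_true]
    linarith

lemma Arc.dup {s : ℝ} (hs : 0 ≤ s) {a b : M} {l1 l2 : List M} {x : M} {w : ℝ}
    (h : Arc s a b (l1 ++ x :: l2) w) : Arc s a b (l1 ++ x :: x :: l2) w := by
  obtain ⟨h1, h2, h3⟩ := h
  have e1 : l1 ++ x :: l2 ++ [b] = l1 ++ x :: (l2 ++ [b]) := by simp
  have e2 : l1 ++ x :: x :: l2 ++ [b] = l1 ++ x :: x :: (l2 ++ [b]) := by simp
  unfold Arc
  rw [e1] at h1 h2 h3
  rw [e2, chl_dup]
  refine ⟨?_, chain_dup hs _ _ _ h2, h3⟩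
  cases l1 with
  | nil => simpa using h1
  | cons y l1 => simpa using h1

lemma Arc.pert {s η : ℝ} (hη : 0 ≤ η) {a b : M} {l l' : List M} {w : ℝ} (h : Arc s a b l w)
    (hc : Cls' η l l') (hh : (l' ++ [b]).head? = some a) :
    Arc (s + 2 * η) a b l' (w + 2 * η * (l.length + 1)) := by
  have hc' : Cls' η (l ++ [b]) (l' ++ [b]) :=
    List.rel_append hc (List.Forall₂.cons (by simpa using hη) List.Forall₂.nil)
  refine ⟨hh, chain_pert hc' h.2.1, ?_⟩
  have := chl_pert hc' hη
  rw [List.length_append] at this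
  simp only [List.length_cons, List.length_nil, Nat.cast_add, Nat.cast_one, zero_add] at this
  linarith [h.2.2]

/-! ### replacing the vertices of a piece -/

variable {r ℓ : ℝ} {S : Set M}

lemma cls_refl {η : ℝ} (hη : 0 ≤ η) (l : List M) : Cls' η l l := by
  unfold Cls'
  exact List.forall₂_same.mpr (fun y _ => by simpa using hη)

/-- replacing the vertices of a piece, except its first vertex -/
lemma piece {η s wX w wZ : ℝ} {u v v' : M} {X Z : List M} (hη : 0 ≤ η) (hs0 : 0 ≤ s)
    (hs : s + 2 * η ≤ r) (hX : Arc s u v X wX) (hZ : Arc s v' u Z wZ)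
    (hXS : ∀ y ∈ X, y ∈ S) (hZS : ∀ y ∈ Z, y ∈ S) (hvS : v ∈ S) :
    ∀ (Q Q' A A' : List M), Arc s v v' (v :: (A ++ Q)) w → Cls' η A A' → Cls' η Q Q' →
    (∀ y ∈ A', y ∈ S) → (∀ y ∈ Q, y ∈ S) → (∀ y ∈ Q', y ∈ S) →
    wX + (w + 2 * η * ((A ++ Q).length + 3)) + wZ < ℓ →
    Cn r ℓ S (X ++ (v :: (A' ++ Q)) ++ Z) (X ++ (v :: (A' ++ Q')) ++ Z) := by
  have hXr : Arc (s + 2 * η) u v X wX := hX.mono (by linarith) le_rfl
  have hZr : Arc (s + 2 * η) v' u Z wZ := hZ.mono (by linarith) le_rfl
  intro Q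
  induction Q with
  | nil =>
    intro Q' A A' _ _ hQ _ _ _ _
    unfold Cls' at hQ
    cases hQ
    exact Cn.refl
  | cons x Q ih =>
    intro Q' A A' h1 hA hQ hSA hSQ hSQ' hℓ
    unfold Cls' at hQ
    cases hQ with
    | @cons _ x' _ Q'' hx hQ'' =>
      have hxx : dist x x ≤ η := by simpa using hη
      have hvv : dist v v ≤ η := by simpa using hη
      -- the three polygons
      have hlen : (((v :: (A ++ x :: Q)).length : ℕ) : ℝ) = ((A ++ x :: Q).length : ℝ) + 1 := by
        simp
      have hlen2 : (((v :: (A ++ x :: x :: Q)).length : ℕ) : ℝ) =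
          ((A ++ x :: Q).length : ℝ) + 2 := by
        simp only [List.length_cons, List.length_append]
        push_cast
        ring
      have g1 : Good r ℓ S (X ++ (v :: (A' ++ x :: Q)) ++ Z) := by
        have a1 := h1.pert hη (l' := v :: (A' ++ x :: Q))
          (List.Forall₂.cons hvv (List.rel_append hA (cls_refl hη _))) rfl
        refine ((hXr.append a1).append hZr).good (by simp) hs ?_ ?_
        · rw [hlen]
          linarith
        · intro y hy
          simp only [List.mem_append, List.mem_cons] at hy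
          rcases hy with (h | h | h | h) | h
          · exact hXS y h
          · rw [h]; exact hvS
          · exact hSA y h
          · exact hSQ y (by simpa using h)
          · exact hZS y h
      have g2 : Good r ℓ S (X ++ (v :: (A' ++ x' :: Q)) ++ Z) := by
        have a1 := h1.pert hη (l' := v :: (A' ++ x' :: Q))
          (List.Forall₂.cons hvv (List.rel_append hA
            (List.Forall₂.cons hx (cls_refl hη _)))) rfl
        refine ((hXr.append a1).append hZr).good (by simp) hs ?_ ?_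
        · rw [hlen]
          linarith
        · intro y hy
          simp only [List.mem_append, List.mem_cons] at hy
          rcases hy with (h | h | h | h | h) | h
          · exact hXS y h
          · rw [h]; exact hvS
          · exact hSA y h
          · rw [h]; exact hSQ' x' (by simp)
          · exact hSQ y (by simp [h])
          · exact hZS y h
      have g3 : Good r ℓ S (X ++ (v :: (A' ++ x :: x' :: Q)) ++ Z) := by
        have a0 : Arc s v v' (v :: (A ++ x :: x :: Q)) w := by
          have := Arc.dup hs0 (l1 := v :: A) (x := x) (l2 := Q) (by simpa using h1)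
          simpa using this
        have a1 := a0.pert hη (l' := v :: (A' ++ x :: x' :: Q))
          (List.Forall₂.cons hvv (List.rel_append hA (List.Forall₂.cons hxx
            (List.Forall₂.cons hx (cls_refl hη _))))) rfl
        refine ((hXr.append a1).append hZr).good (by simp) hs ?_ ?_
        · rw [hlen2]
          linarith
        · intro y hy
          simp only [List.mem_append, List.mem_cons] at hy
          rcases hy with (h | h | h | h | h | h) | h
          · exact hXS y h
          · rw [h]; exact hvS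
          · exact hSA y h
          · rw [h]; exact hSQ x (by simp)
          · rw [h]; exact hSQ' x' (by simp)
          · exact hSQ y (by simp [h])
          · exact hZS y h
      have c1 : Cn r ℓ S (X ++ (v :: (A' ++ x :: Q)) ++ Z) (X ++ (v :: (A' ++ x :: x' :: Q)) ++ Z) := by
        have := ins_any (X ++ v :: A' ++ [x]) (Q ++ Z) x' (by simp) (by simpa using g1)
          (by simpa using g3)
        simpa using this
      have c2 : Cn r ℓ S (X ++ (v :: (A' ++ x' :: Q)) ++ Z) (X ++ (v :: (A' ++ x :: x' :: Q)) ++ Z) := by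
        have := ins_any (X ++ v :: A') (x' :: Q ++ Z) x (by simp) (by simpa using g2)
          (by simpa using g3)
        simpa using this
      have c3 := ih Q'' (A ++ [x]) (A' ++ [x']) (by simpa using h1)
        (List.rel_append hA (List.Forall₂.cons hx List.Forall₂.nil)) hQ''
        (by
          intro y hy
          simp only [List.mem_append, List.mem_singleton] at hy
          rcases hy with h | h
          · exact hSA y h
          · rw [h]; exact hSQ' x' (by simp))
        (fun y hy => hSQ y (List.mem_cons_of_mem _ hy))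
        (fun y hy => hSQ' y (List.mem_cons_of_mem _ hy))
        (by simpa using hℓ)
      have c3' : Cn r ℓ S (X ++ (v :: (A' ++ x' :: Q)) ++ Z) (X ++ (v :: (A' ++ x' :: Q'')) ++ Z) := by
        simpa using c3
      exact (c1.trans c2.symm).trans c3'

/-! ### dyadic chains -/

/-- dyadic chains of approximate midpoints from `y` to `z` (without `z`) -/
def Dy (δ : ℝ) : ℕ → M → M → List M → Prop
  | 0, y, _, l => l = [y]
  | k + 1, y, z, l => ∃ m l₁ l₂, dist y m ≤ dist y z / 2 + δ ∧ dist m z ≤ dist y z / 2 + δ ∧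
      Dy δ k y m l₁ ∧ Dy δ k m z l₂ ∧ l = l₁ ++ l₂

lemma Dy.mono {δ δ' : ℝ} (h : δ ≤ δ') : ∀ (k : ℕ) (y z : M) (l : List M), Dy δ k y z l →
    Dy δ' k y z l := by
  intro k
  induction k with
  | zero => intro y z l hl; exact hl
  | succ k ih =>
    rintro y z l ⟨m, l₁, l₂, h1, h2, h3, h4, h5⟩
    exact ⟨m, l₁, l₂, by linarith, by linarith, ih _ _ _ h3, ih _ _ _ h4, h5⟩

lemma Dy.len {δ : ℝ} : ∀ (k : ℕ) (y z : M) (l : List M), Dy δ k y z l → l.length = 2 ^ k := by
  intro k
  induction k with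
  | zero =>
    intro y z l hl
    have : l = [y] := hl
    simp [this]
  | succ k ih =>
    rintro y z l ⟨m, l₁, l₂, h1, h2, h3, h4, h5⟩
    rw [h5, List.length_append, ih _ _ _ h3, ih _ _ _ h4, pow_succ]
    ring

lemma Dy.head {δ : ℝ} : ∀ (k : ℕ) (y z : M) (l : List M), Dy δ k y z l → ∃ t, l = y :: t := by
  intro k
  induction k with
  | zero =>
    intro y z l hl
    exact ⟨[], hl⟩
  | succ k ih =>
    rintro y z l ⟨m, l₁, l₂, h1, h2, h3, h4, h5⟩
    obtain ⟨t, ht⟩ := ih _ _ _ h3
    exact ⟨t ++ l₂, by rw [h5, ht]; rfl⟩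

lemma Dy.arc {δ : ℝ} (hδ : 0 ≤ δ) : ∀ (k : ℕ) (y z : M) (l : List M), Dy δ k y z l →
    Arc (dist y z / 2 ^ k + 2 * δ * (1 - 1 / 2 ^ k)) y z l (dist y z + 2 * δ * (2 ^ k - 1)) := by
  intro k
  induction k with
  | zero =>
    intro y z l hl
    have : l = [y] := hl
    subst this
    exact (Arc.single (le_refl (dist y z))).mono (by simp) (by simp)
  | succ k ih =>
    rintro y z l ⟨m, l₁, l₂, h1, h2, h3, h4, h5⟩
    subst h5
    have h2k : (0 : ℝ) < 2 ^ k := by positivity
    have e1 : dist y z / 2 ^ (k + 1) + 2 * δ * (1 - 1 / 2 ^ (k + 1)) =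
        (dist y z / 2 + δ) / 2 ^ k + 2 * δ * (1 - 1 / 2 ^ k) := by
      rw [pow_succ]
      field_simp
      ring
    rw [e1]
    have a1 := (ih _ _ _ h3).mono (s' := (dist y z / 2 + δ) / 2 ^ k + 2 * δ * (1 - 1 / 2 ^ k))
      (by
        have := div_le_div_of_nonneg_right h1 h2k.le
        linarith) (le_refl _)
    have a2 := (ih _ _ _ h4).mono (s' := (dist y z / 2 + δ) / 2 ^ k + 2 * δ * (1 - 1 / 2 ^ k))
      (by
        have := div_le_div_of_nonneg_right h2 h2k.le
        linarith) (le_refl _)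
    refine (a1.append a2).mono le_rfl ?_
    rw [pow_succ]
    linarith

lemma Dy.pts {δ : ℝ} (hδ : 0 ≤ δ) : ∀ (k : ℕ) (y z : M) (l : List M), Dy δ k y z l →
    ∀ p ∈ l, dist y p ≤ dist y z + 2 ^ (k + 1) * δ := by
  intro k
  induction k with
  | zero =>
    intro y z l hl p hp
    have : l = [y] := hl
    subst this
    rw [List.mem_singleton] at hp
    subst hp
    rw [dist_self]
    have := dist_nonneg (x := p) (y := z)
    positivity
  | succ k ih =>
    rintro y z l ⟨m, l₁, l₂, h1, h2, h3, h4, h5⟩ p hp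
    subst h5
    have h2k : (1 : ℝ) ≤ 2 ^ k := one_le_pow₀ (by norm_num)
    have h2d : δ ≤ 2 ^ k * δ := by nlinarith
    have e1 : (2 : ℝ) ^ (k + 1 + 1) * δ = 4 * (2 ^ k * δ) := by rw [pow_succ, pow_succ]; ring
    have e2 : (2 : ℝ) ^ (k + 1) * δ = 2 * (2 ^ k * δ) := by rw [pow_succ]; ring
    have hyz := dist_nonneg (x := y) (y := z)
    rw [e1]
    rw [List.mem_append] at hp
    rcases hp with hp | hp
    · have := ih _ _ _ h3 p hp
      rw [e2] at this
      linarith
    · have h6 := ih _ _ _ h4 p hp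
      rw [e2] at h6
      have h7 := dist_triangle y m p
      linarith

lemma Dy.const {δ : ℝ} (hδ : 0 ≤ δ) (y : M) : ∀ k : ℕ, Dy δ k y y (List.replicate (2 ^ k) y) := by
  intro k
  induction k with
  | zero => rfl
  | succ k ih =>
    refine ⟨y, _, _, by simpa using hδ, by simpa using hδ, ih, ih, ?_⟩
    rw [← List.replicate_add, pow_succ]
    congr 1
    ring

/-- existence of dyadic chains -/
lemma Dy.exists_of {K' : Set M} {x : M} {ρ : ℝ} (hK : Metric.ball x ρ ⊆ K')
    (hmid : ∀ y ∈ K', ∀ z : M, dist y z < ρ → ∀ δ > 0, ∃ m, dist y m ≤ dist y z / 2 + δ ∧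
      dist m z ≤ dist y z / 2 + δ) {δ : ℝ} (hδ : 0 < δ) : ∀ (k : ℕ) (y z : M),
    dist x y + dist y z + 2 ^ (k + 1) * δ < ρ → ∃ l, Dy δ k y z l := by
  intro k
  induction k with
  | zero => intro y z _; exact ⟨[y], rfl⟩
  | succ k ih =>
    intro y z h
    have h2k : (1 : ℝ) ≤ 2 ^ k := one_le_pow₀ (by norm_num)
    have h2d : δ ≤ 2 ^ k * δ := by nlinarith
    have e1 : (2 : ℝ) ^ (k + 1 + 1) * δ = 4 * (2 ^ k * δ) := by rw [pow_succ, pow_succ]; ring
    have e2 : (2 : ℝ) ^ (k + 1) * δ = 2 * (2 ^ k * δ) := by rw [pow_succ]; ring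
    rw [e1] at h
    have hyz := dist_nonneg (x := y) (y := z)
    have hxy := dist_nonneg (x := x) (y := y)
    have hy : y ∈ K' := hK (by rw [Metric.mem_ball, dist_comm]; linarith)
    obtain ⟨m, h1, h2⟩ := hmid y hy z (by linarith) δ hδ
    have hxm := dist_triangle x y m
    obtain ⟨l₁, hl₁⟩ := ih y m (by rw [e2]; linarith)
    obtain ⟨l₂, hl₂⟩ := ih m z (by rw [e2]; linarith)
    exact ⟨l₁ ++ l₂, m, l₁, l₂, h1, h2, hl₁, hl₂, rfl⟩

/-- stability of dyadic chains -/
lemma Dy.stab {R : Set M} {r₀ : ℝ}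
    (hum : ∀ ε > 0, ∃ δ > 0, ∀ x ∈ R,
    ∀ y ∈ Metric.ball x r₀, ∀ z ∈ Metric.ball x r₀, ∀ y' ∈ Metric.ball x r₀,
    ∀ z' ∈ Metric.ball x r₀, ∀ m ∈ Metric.ball x r₀, ∀ m' ∈ Metric.ball x r₀,
      dist y y' < δ → dist z z' < δ →
      dist y m ≤ dist y z / 2 + δ → dist m z ≤ dist y z / 2 + δ →
      dist y' m' ≤ dist y' z' / 2 + δ → dist m' z' ≤ dist y' z' / 2 + δ → dist m m' < ε) :
    ∀ (k : ℕ) (ε : ℝ), 0 < ε → ∃ δ > 0, ∀ x ∈ R, ∀ (y z y' z' : M) (l l' : List M),
      y ∈ Metric.ball x r₀ → z ∈ Metric.ball x r₀ → y' ∈ Metric.ball x r₀ →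
      z' ∈ Metric.ball x r₀ → (∀ p ∈ l, p ∈ Metric.ball x r₀) →
      (∀ p ∈ l', p ∈ Metric.ball x r₀) → Dy δ k y z l → Dy δ k y' z' l' →
      dist y y' < δ → dist z z' < δ → Cls' ε l l' := by
  intro k
  induction k with
  | zero =>
    intro ε hε
    refine ⟨ε, hε, ?_⟩
    intro x _ y z y' z' l l' _ _ _ _ _ _ hl hl' hyy _
    have h1 : l = [y] := hl
    have h2 : l' = [y'] := hl'
    subst h1 h2
    exact List.Forall₂.cons hyy.le List.Forall₂.nil
  | succ k ih =>
    intro ε hε
    obtain ⟨δ₁, hδ₁, ih₁⟩ := ih ε hε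
    obtain ⟨δ₂, hδ₂, hum₂⟩ := hum δ₁ hδ₁
    refine ⟨min δ₁ δ₂, lt_min hδ₁ hδ₂, ?_⟩
    rintro x hx y z y' z' l l' hy hz hy' hz' hl hl' ⟨m, l₁, l₂, h1, h2, h3, h4, h5⟩
      ⟨m', l₁', l₂', h1', h2', h3', h4', h5'⟩ hyy hzz
    subst h5 h5'
    obtain ⟨t, ht⟩ := Dy.head _ _ _ _ h4
    obtain ⟨t', ht'⟩ := Dy.head _ _ _ _ h4'
    have hm : m ∈ Metric.ball x r₀ := hl m (by rw [ht]; simp)
    have hm' : m' ∈ Metric.ball x r₀ := hl' m' (by rw [ht']; simp)
    have hle2 : min δ₁ δ₂ ≤ δ₂ := min_le_right _ _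
    have hle1 : min δ₁ δ₂ ≤ δ₁ := min_le_left _ _
    have hmm : dist m m' < δ₁ :=
      hum₂ x hx y hy z hz y' hy' z' hz' m hm m' hm' (by linarith) (by linarith) (by linarith)
        (by linarith) (by linarith) (by linarith)
    refine List.rel_append ?_ ?_
    · exact ih₁ x hx y m y' m' l₁ l₁' hy hm hy' hm'
        (fun p hp => hl p (List.mem_append_left _ hp))
        (fun p hp => hl' p (List.mem_append_left _ hp)) (Dy.mono hle1 _ _ _ _ h3)
        (Dy.mono hle1 _ _ _ _ h3') (by linarith) hmm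
    · exact ih₁ x hx m z m' z' l₂ l₂' hm hz hm' hz'
        (fun p hp => hl p (List.mem_append_right _ hp))
        (fun p hp => hl' p (List.mem_append_right _ hp)) (Dy.mono hle1 _ _ _ _ h4)
        (Dy.mono hle1 _ _ _ _ h4') hmm (by linarith)

/-! ### deletion of a vertex, duplication -/

lemma del {U V : List M} {u a b : M} {s w1 w2 : ℝ} (h1 : Arc s u a U w1) (hne : U ≠ [])
    (hab : dist a b ≤ s) (h2 : Arc s b u V w2) (hs0 : 0 ≤ s) (hs : 2 * s ≤ r)
    (hw : w1 + dist a b + w2 < ℓ) (hU : ∀ y ∈ U, y ∈ S) (ha : a ∈ S) (hV : ∀ y ∈ V, y ∈ S) :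
    Cn r ℓ S (U ++ a :: V) (U ++ V) := by
  have g1 : Good r ℓ S (U ++ a :: V) := by
    have := (h1.append (Arc.single hab)).append h2
    have h3 : Arc s u u (U ++ a :: V) (w1 + dist a b + w2) := by simpa using this
    refine h3.good (by simp) (by linarith) hw ?_
    intro y hy
    simp only [List.mem_append, List.mem_cons] at hy
    rcases hy with h | h | h
    · exact hU y h
    · rw [h]; exact ha
    · exact hV y h
  have g2 : Good r ℓ S (U ++ V) := by
    have h3 := ((h1.move_end (c := b) hne).mono (s' := 2 * s) (by linarith) le_rfl).append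
      (h2.mono (s' := 2 * s) (by linarith) le_rfl)
    refine h3.good (by simp [hne]) hs hw ?_
    intro y hy
    simp only [List.mem_append] at hy
    rcases hy with h | h
    · exact hU y h
    · exact hV y h
  exact (ins_any U V a (by simp [hne]) g2 g1).symm

lemma arc_replicate {s : ℝ} (hs : 0 ≤ s) (a : M) (q : ℕ) : Arc s a a (List.replicate q a) 0 := by
  induction q with
  | zero => exact Arc.nil a
  | succ q ih =>
    have h := (Arc.single (s := s) (a := a) (b := a) (by simpa using hs)).append ih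
    have e : List.replicate (q + 1) a = [a] ++ List.replicate q a := rfl
    rw [e]
    exact h.mono le_rfl (by simp)

lemma dups {X V : List M} {u a : M} {s w1 w2 : ℝ} (h1 : Arc s u a X w1)
    (h2 : Arc s a u (a :: V) w2) (hs0 : 0 ≤ s) (hs : s ≤ r) (hw : w1 + w2 < ℓ)
    (hX : ∀ y ∈ X, y ∈ S) (ha : a ∈ S) (hV : ∀ y ∈ V, y ∈ S) (q : ℕ) :
    Cn r ℓ S (X ++ a :: V) (X ++ List.replicate q a ++ a :: V) := by
  have hg : ∀ q : ℕ, Good r ℓ S (X ++ List.replicate q a ++ a :: V) := by
    intro q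
    refine ((h1.append (arc_replicate hs0 a q)).append h2).good (by simp) hs (by linarith) ?_
    intro y hy
    simp only [List.mem_append, List.mem_cons] at hy
    rcases hy with (h | h) | h | h
    · exact hX y h
    · rw [List.eq_of_mem_replicate h]; exact ha
    · rw [h]; exact ha
    · exact hV y h
  induction q with
  | zero => simpa using Cn.refl
  | succ q ih =>
    refine ih.trans ?_
    have e : X ++ List.replicate (q + 1) a ++ a :: V =
        X ++ a :: (List.replicate q a ++ a :: V) := by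
      rw [List.replicate_succ]; simp
    have e2 : X ++ List.replicate q a ++ a :: V = X ++ (List.replicate q a ++ a :: V) := by simp
    have g1 := hg q
    have g2 := hg (q + 1)
    rw [e2] at g1 ⊢
    rw [e] at g2 ⊢
    exact ins_any X _ a (by simp) g1 g2

/-! ### segments of a sequence of points -/

/-- the points `F a, ..., F (a + m - 1)` -/
def sg (F : ℕ → M) (a m : ℕ) : List M := (List.range' a m).map F

/-- the length of a segment -/
noncomputable def ln (F : ℕ → M) (a m : ℕ) : ℝ := ∑ i ∈ Finset.range m, dist (F (a + i)) (F (a + i + 1))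

lemma sg_succ (F : ℕ → M) (a m : ℕ) : sg F a (m + 1) = F a :: sg F (a + 1) m := by
  unfold sg
  rw [List.range'_succ]
  rfl

lemma sg_add (F : ℕ → M) (a m m' : ℕ) : sg F a (m + m') = sg F a m ++ sg F (a + m) m' := by
  unfold sg
  rw [← List.map_append, List.range'_append_1]

lemma ln_succ (F : ℕ → M) (a m : ℕ) : ln F a (m + 1) = dist (F a) (F (a + 1)) + ln F (a + 1) m := by
  unfold ln
  rw [Finset.sum_range_succ', add_comm]
  congr 1
  apply Finset.sum_congr rfl
  intro i _
  have : a + (i + 1) = a + 1 + i := by ring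
  rw [this]

lemma ln_add (F : ℕ → M) (a m m' : ℕ) : ln F a (m + m') = ln F a m + ln F (a + m) m' := by
  unfold ln
  rw [Finset.sum_range_add]
  congr 1
  apply Finset.sum_congr rfl
  intro i _
  rw [add_assoc a m i]

lemma ln_nonneg (F : ℕ → M) (a m : ℕ) : 0 ≤ ln F a m :=
  Finset.sum_nonneg fun _ _ => dist_nonneg

lemma dist_le_ln (F : ℕ → M) (a m : ℕ) : dist (F a) (F (a + m)) ≤ ln F a m := by
  induction m with
  | zero => simp [ln]
  | succ m ih =>
    rw [ln_add]
    have h1 : ln F (a + m) 1 = dist (F (a + m)) (F (a + m + 1)) := by simp [ln]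
    rw [h1]
    have := dist_triangle (F a) (F (a + m)) (F (a + m + 1))
    have e : a + (m + 1) = a + m + 1 := by ring
    rw [e]
    linarith

lemma sg_arc {s : ℝ} (F : ℕ → M) (m : ℕ) : ∀ a : ℕ,
    (∀ i < m, dist (F (a + i)) (F (a + i + 1)) ≤ s) → Arc s (F a) (F (a + m)) (sg F a m) (ln F a m) := by
  induction m with
  | zero =>
    intro a _
    exact (Arc.nil (F a)).mono le_rfl (by simp [ln])
  | succ m ih =>
    intro a h
    rw [sg_succ, ln_succ]
    have h1 := ih (a + 1) (fun i hi => by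
      have := h (i + 1) (by omega)
      have e : a + (i + 1) = a + 1 + i := by ring
      rw [e] at this
      exact this)
    have h2 : Arc s (F a) (F (a + 1)) [F a] (dist (F a) (F (a + 1))) :=
      Arc.single (by have := h 0 (by omega); simpa using this)
    have e : a + 1 + m = a + (m + 1) := by ring
    rw [e] at h1
    exact h2.append h1

/-! ### systems of chains -/

/-- a system of chains -/
structure Sys (R S : Set M) (c s e η δ : ℝ) (n : ℕ) (C : M → M → List M → Prop) : Prop where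
  npos : 1 ≤ n
  ex : ∀ y ∈ R, ∀ z ∈ R, dist y z ≤ c → ∃ l, C y z l
  head : ∀ y z l, C y z l → ∃ t, l = y :: t
  len : ∀ y z l, C y z l → l.length = n
  pts : ∀ y ∈ R, ∀ z ∈ R, dist y z ≤ c → ∀ l, C y z l → ∀ p ∈ l, p ∈ S
  arc : ∀ y ∈ R, ∀ z ∈ R, dist y z ≤ c → ∀ l, C y z l → Arc s y z l (dist y z + e)
  st : ∀ y ∈ R, ∀ z ∈ R, ∀ y' ∈ R, ∀ z' ∈ R, dist y z ≤ c → dist y' z' ≤ c → dist y y' < δ →
    dist z z' < δ → ∀ l l', C y z l → C y' z' l' → Cls' η l l'
  const : ∀ y ∈ R, C y y (List.replicate n y)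

/-- replacing a fine arc by a chain of the system -/
lemma arc_repl {R : Set M} {c s e η δ : ℝ} {n : ℕ} {C : M → M → List M → Prop}
    (hC : Sys R S c s e η δ n C) (hRS : R ⊆ S) (hs0 : 0 ≤ s) (hη : 0 ≤ η) (hδ0 : 0 < δ)
    (hδs : δ ≤ s) (he : 0 ≤ e) (hc : 0 ≤ c) (hr : 2 * s + 2 * η ≤ r) (F : ℕ → M) (hF : ∀ i, F i ∈ R)
    (a m : ℕ) (hm : 1 ≤ m) (hFc : ∀ i ≤ m, dist (F a) (F (a + i)) ≤ c)
    (hFδ : ∀ i < m, dist (F (a + i)) (F (a + i + 1)) < δ) {X Z : List M} {u : M} {wX wZ : ℝ}
    (hX : Arc s u (F a) X wX) (hZ : Arc s (F (a + m)) u Z wZ) (hXS : ∀ y ∈ X, y ∈ S)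
    (hZS : ∀ y ∈ Z, y ∈ S) (hw : wX + ln F a m + e + wZ + 2 * η * (n + 3) < ℓ) :
    ∀ i j, i + j = m → ∀ l, C (F a) (F (a + i)) l →
      Cn r ℓ S (X ++ sg F a m ++ Z) (X ++ l ++ (sg F (a + i) j ++ Z)) := by
  have hn : (1 : ℝ) ≤ n := by exact_mod_cast hC.npos
  have hηn : 0 ≤ 2 * η * (n + 3) := by positivity
  have hsgS : ∀ a' m' : ℕ, ∀ y ∈ sg F a' m', y ∈ S := by
    intro a' m' y hy
    unfold sg at hy
    obtain ⟨i, -, rfl⟩ := List.mem_map.mp hy
    exact hRS (hF i)
  intro i
  induction i with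
  | zero =>
    intro j hj l hl
    have hj' : j = m := by omega
    subst hj'
    obtain ⟨m', rfl⟩ : ∃ m', j = m' + 1 := ⟨j - 1, by omega⟩
    rw [add_zero] at hl ⊢
    have hZ' : Arc s (F a) u (F a :: (sg F (a + 1) m' ++ Z)) (ln F a (m' + 1) + wZ) := by
      have h1 := (sg_arc F (m' + 1) a (fun i hi => ((hFδ i hi).le.trans hδs))).append hZ
      rw [sg_succ] at h1
      exact h1
    have hVS : ∀ y ∈ sg F (a + 1) m' ++ Z, y ∈ S := by
      intro y hy
      rcases List.mem_append.mp hy with h | h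
      · exact hsgS _ _ y h
      · exact hZS y h
    have c1 := dups (r := r) (ℓ := ℓ) (S := S) hX hZ' hs0 (by linarith) (by linarith) hXS
      (hRS (hF a)) hVS n
    have hcls := hC.st (F a) (hF a) (F a) (hF a) (F a) (hF a) (F a) (hF a) (by simpa using hc)
      (by simpa using hc) (by simpa using hδ0) (by simpa using hδ0) _ l (hC.const _ (hF a)) hl
    obtain ⟨t, ht⟩ := hC.head _ _ _ hl
    have hlen := hC.len _ _ _ hl
    have hpts := hC.pts _ (hF a) _ (hF a) (by simpa using hc) l hl
    obtain ⟨n', hn'⟩ : ∃ n', n = n' + 1 := ⟨n - 1, by have := hC.npos; omega⟩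
    have hcls' : Cls' η (List.replicate n' (F a)) t := by
      rw [ht, hn', List.replicate_succ] at hcls
      unfold Cls' at hcls
      cases hcls with
      | cons _ h => exact h
    have harc := arc_replicate hs0 (F a) n
    rw [hn', List.replicate_succ] at harc
    have c2 := piece (r := r) (ℓ := ℓ) (S := S) hη hs0 (by linarith) hX hZ' hXS (by
        intro y hy
        rcases List.mem_cons.mp hy with h | h
        · rw [h]; exact hRS (hF a)
        · exact hVS y h) (hRS (hF a)) (List.replicate n' (F a)) t [] [] harc List.Forall₂.nil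
        hcls' (by simp) (fun y hy => by
          rw [List.eq_of_mem_replicate hy]; exact hRS (hF a)) (fun y hy => hpts y (by
          rw [ht]; exact List.mem_cons_of_mem _ hy)) (by
          simp only [List.nil_append, List.length_replicate]
          have : ((n' : ℕ) : ℝ) + 1 = n := by rw [hn']; push_cast; ring
          have h3 : 2 * η * ((n' : ℝ) + 3) ≤ 2 * η * (n + 3) :=
            mul_le_mul_of_nonneg_left (by linarith) (by linarith)
          linarith)
    have e1 : X ++ sg F a (m' + 1) ++ Z = X ++ F a :: (sg F (a + 1) m' ++ Z) := by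
      rw [sg_succ]; simp
    have e2 : X ++ l ++ (sg F a (m' + 1) ++ Z) =
        X ++ (F a :: ([] ++ t)) ++ (F a :: (sg F (a + 1) m' ++ Z)) := by
      rw [sg_succ, ht]; simp
    have e3 : X ++ List.replicate n (F a) ++ F a :: (sg F (a + 1) m' ++ Z) =
        X ++ (F a :: ([] ++ List.replicate n' (F a))) ++ (F a :: (sg F (a + 1) m' ++ Z)) := by
      rw [hn', List.replicate_succ]; simp
    rw [e1, e2]
    rw [e3] at c1
    exact c1.trans c2
  | succ i ih =>
    intro j hj l' hl'
    have hia : dist (F a) (F (a + i)) ≤ c := hFc i (by omega)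
    have hia1 : dist (F a) (F (a + (i + 1))) ≤ c := hFc (i + 1) (by omega)
    obtain ⟨l, hl⟩ := hC.ex (F a) (hF a) (F (a + i)) (hF _) hia
    have c1 := ih (j + 1) (by omega) l hl
    have e0 : a + (i + 1) = a + i + 1 := by ring
    rw [e0] at hl' hia1 ⊢
    have hstep := hFδ i (by omega)
    have hl1 := hC.arc (F a) (hF a) (F (a + i)) (hF _) hia l hl
    obtain ⟨t, ht⟩ := hC.head _ _ _ hl
    obtain ⟨t', ht'⟩ := hC.head _ _ _ hl'
    have hln : ln F a m = ln F a i + (dist (F (a + i)) (F (a + i + 1)) + ln F (a + i + 1) j) := by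
      rw [← ln_succ, ← ln_add]
      congr 1
      omega
    have hdl := dist_le_ln F a i
    have hV : Arc s (F (a + i + 1)) u (sg F (a + i + 1) j ++ Z) (ln F (a + i + 1) j + wZ) := by
      have h1 := sg_arc (s := s) F j (a + i + 1) (fun q hq => by
        have := hFδ (i + 1 + q) (by omega)
        have e : a + (i + 1 + q) = a + i + 1 + q := by ring
        rw [e] at this
        exact this.le.trans hδs)
      have e : a + i + 1 + j = a + m := by omega
      rw [e] at h1
      exact h1.append hZ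
    have hVS : ∀ y ∈ sg F (a + i + 1) j ++ Z, y ∈ S := by
      intro y hy
      rcases List.mem_append.mp hy with h | h
      · exact hsgS _ _ y h
      · exact hZS y h
    have hpts := hC.pts _ (hF a) _ (hF _) hia l hl
    have hpts' := hC.pts _ (hF a) _ (hF _) hia1 l' hl'
    have hUS : ∀ y ∈ X ++ l, y ∈ S := by
      intro y hy
      rcases List.mem_append.mp hy with h | h
      · exact hXS y h
      · exact hpts y h
    have c2 := del (r := r) (ℓ := ℓ) (S := S) (hX.append hl1) (by rw [ht]; simp)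
      (hstep.le.trans hδs) hV hs0 (by linarith) (by linarith) hUS (hRS (hF _)) hVS
    have hcls := hC.st (F a) (hF a) (F (a + i)) (hF _) (F a) (hF a) (F (a + i + 1)) (hF _) hia hia1
      (by simpa using hδ0) hstep l l' hl hl'
    have hcls' : Cls' η t t' := by
      rw [ht, ht'] at hcls
      unfold Cls' at hcls
      cases hcls with
      | cons _ h => exact h
    have hlen := hC.len _ _ _ hl
    rw [ht, List.length_cons] at hlen
    have hl2 : Arc (2 * s) (F a) (F (a + i + 1)) (F a :: ([] ++ t))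
        (ln F a i + e + dist (F (a + i)) (F (a + i + 1))) := by
      have h1 := hl1.move_end (c := F (a + i + 1)) (by rw [ht]; simp)
      rw [ht] at h1
      exact h1.mono (by linarith) (by linarith)
    have c3 := piece (r := r) (ℓ := ℓ) (S := S) hη (by linarith) hr
      (hX.mono (s' := 2 * s) (by linarith) le_rfl) (hV.mono (s' := 2 * s) (by linarith) le_rfl)
      hXS hVS (hRS (hF a)) t t' [] [] hl2 List.Forall₂.nil hcls' (by simp)
      (fun y hy => hpts y (by rw [ht]; exact List.mem_cons_of_mem _ hy))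
      (fun y hy => hpts' y (by rw [ht']; exact List.mem_cons_of_mem _ hy)) (by
        simp only [List.nil_append]
        have : ((t.length : ℕ) : ℝ) + 1 = n := by rw [← hlen]; push_cast; ring
        have h3 : 2 * η * ((t.length : ℝ) + 3) ≤ 2 * η * (n + 3) :=
          mul_le_mul_of_nonneg_left (by linarith) (by linarith)
        linarith)
    have e1 : X ++ l ++ (sg F (a + i) (j + 1) ++ Z) =
        X ++ l ++ F (a + i) :: (sg F (a + i + 1) j ++ Z) := by
      rw [sg_succ]; simp
    have e2 : X ++ (F a :: ([] ++ t)) ++ (sg F (a + i + 1) j ++ Z) =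
        X ++ l ++ (sg F (a + i + 1) j ++ Z) := by
      rw [ht]; simp
    have e3 : X ++ (F a :: ([] ++ t')) ++ (sg F (a + i + 1) j ++ Z) =
        X ++ l' ++ (sg F (a + i + 1) j ++ Z) := by
      rw [ht']; simp
    rw [e1] at c1
    rw [e2, e3] at c3
    exact (c1.trans c2).trans c3

/-! ### concatenation of chains -/

/-- concatenation -/
def poly (l : ℕ → List M) : ℕ → List M
  | 0 => []
  | j + 1 => poly l j ++ l j

lemma poly_arc {s : ℝ} (p : ℕ → M) (l : ℕ → List M) (w : ℕ → ℝ) (B : ℕ)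
    (h : ∀ j < B, Arc s (p j) (p (j + 1)) (l j) (w j)) :
    Arc s (p 0) (p B) (poly l B) (∑ j ∈ Finset.range B, w j) := by
  induction B with
  | zero =>
    rw [Finset.sum_range_zero]
    exact Arc.nil (p 0)
  | succ B ih =>
    rw [Finset.sum_range_succ]
    exact (ih fun j hj => h j (by omega)).append (h B (by omega))

lemma poly_cls {η : ℝ} (l l' : ℕ → List M) (B : ℕ) (h : ∀ j < B, Cls' η (l j) (l' j)) :
    Cls' η (poly l B) (poly l' B) := by
  induction B with
  | zero => exact List.Forall₂.nil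
  | succ B ih => exact List.rel_append (ih fun j hj => h j (by omega)) (h B (by omega))

lemma poly_len (l : ℕ → List M) (n B : ℕ) (h : ∀ j < B, (l j).length = n) :
    (poly l B).length = B * n := by
  induction B with
  | zero => simp [poly]
  | succ B ih =>
    change (poly l B ++ l B).length = _
    rw [List.length_append, ih (fun j hj => h j (by omega)), h B (by omega)]
    ring

lemma poly_mem (l : ℕ → List M) (B : ℕ) (h : ∀ j < B, ∀ p ∈ l j, p ∈ S) :
    ∀ p ∈ poly l B, p ∈ S := by
  induction B with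
  | zero => intro p hp; simp [poly] at hp
  | succ B ih =>
    intro p hp
    change p ∈ poly l B ++ l B at hp
    rcases List.mem_append.mp hp with h1 | h1
    · exact ih (fun j hj => h j (by omega)) p h1
    · exact h B (by omega) p h1

lemma poly_const (c : M) (n B : ℕ) :
    poly (fun _ => List.replicate n c) B = List.replicate (B * n) c := by
  induction B with
  | zero => simp [poly]
  | succ B ih =>
    change poly (fun _ => List.replicate n c) B ++ List.replicate n c = _
    rw [ih, ← List.replicate_add]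
    congr 1
    ring

/-- replacing a closed polygon by a close one -/
lemma repl_closed {η s w : ℝ} {u : M} {Q Q' : List M} (hη : 0 ≤ η) (hs0 : 0 ≤ s)
    (hs : s + 2 * η ≤ r) (hQ : Arc s u u Q w) (hne : Q ≠ []) (hc : Cls' η Q Q')
    (hw : w + 2 * η * (Q.length + 2) < ℓ) (hQS : ∀ y ∈ Q, y ∈ S) (hQS' : ∀ y ∈ Q', y ∈ S) :
    Cn r ℓ S Q Q' := by
  have := replace_all (r := r) (ℓ := ℓ) (S := S) (η := η) (s := s) (ℓ0 := w) hη hs0 hs Q Q' [] []
    (by rw [List.nil_append, hQ.cl_eq hne]; exact hQ.2.1)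
    (by rw [List.nil_append, hQ.cl_eq hne]; exact hQ.2.2)
    (by rw [List.nil_append]; exact hw) List.Forall₂.nil hc (by simp) hQS hQS'
  simpa using this

/-- all the arcs -/
lemma multi {R : Set M} {c s e η δ : ℝ} {n : ℕ} {C : M → M → List M → Prop}
    (hC : Sys R S c s e η δ n C) (hRS : R ⊆ S) (hs0 : 0 ≤ s) (hη : 0 ≤ η) (hδ0 : 0 < δ)
    (hδs : δ ≤ s) (he : 0 ≤ e) (hc : 0 ≤ c) (hr : 2 * s + 2 * η ≤ r) (F : ℕ → M) (hF : ∀ i, F i ∈ R)
    (ν : ℕ → ℕ) (B : ℕ) (hν0 : ν 0 = 0) (hν : ∀ j < B, ν j < ν (j + 1))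
    (hFc : ∀ j < B, ∀ i ≤ ν (j + 1) - ν j, dist (F (ν j)) (F (ν j + i)) ≤ c)
    (hFδ : ∀ i, dist (F i) (F (i + 1)) < δ) (hclosed : F (ν B) = F 0)
    (l : ℕ → List M) (hl : ∀ j < B, C (F (ν j)) (F (ν (j + 1))) (l j))
    (hw : ln F 0 (ν B) + B * e + 2 * η * (n + 3) < ℓ) :
    ∀ j ≤ B, ν j ≤ ν B ∧ Arc s (F 0) (F (ν j)) (poly l j) (ln F 0 (ν j) + j * e) ∧
      Cn r ℓ S (sg F 0 (ν B)) (poly l j ++ sg F (ν j) (ν B - ν j)) := by
  have hmono : ∀ j j', j ≤ j' → j' ≤ B → ν j ≤ ν j' := by
    intro j j' hjj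
    induction j' with
    | zero => intro _; have : j = 0 := by omega
              rw [this]
    | succ j' ih =>
      intro hB
      rcases Nat.lt_or_ge j (j' + 1) with h | h
      · exact (ih (by omega) (by omega)).trans (hν j' (by omega)).le
      · have : j = j' + 1 := by omega
        rw [this]
  have hsgS : ∀ a' m' : ℕ, ∀ y ∈ sg F a' m', y ∈ S := by
    intro a' m' y hy
    unfold sg at hy
    obtain ⟨i, -, rfl⟩ := List.mem_map.mp hy
    exact hRS (hF i)
  intro j
  induction j with
  | zero =>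
    intro _
    refine ⟨hmono 0 B (by omega) le_rfl, ?_, ?_⟩
    · rw [hν0]
      exact (Arc.nil (F 0)).mono le_rfl (by simp [ln])
    · rw [hν0]
      exact Cn.refl
  | succ j ih =>
    intro hj
    obtain ⟨h1, h2, h3⟩ := ih (by omega)
    have hj1 := hν j (by omega)
    have hjB := hmono (j + 1) B hj le_rfl
    have hdist : dist (F (ν j)) (F (ν (j + 1))) ≤ c := by
      have := hFc j (by omega) (ν (j + 1) - ν j) le_rfl
      have e1 : ν j + (ν (j + 1) - ν j) = ν (j + 1) := by omega
      rwa [e1] at this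
    have harc := hC.arc _ (hF (ν j)) _ (hF (ν (j + 1))) hdist (l j) (hl j (by omega))
    have e1 : ν j + (ν (j + 1) - ν j) = ν (j + 1) := by omega
    have hdl := dist_le_ln F (ν j) (ν (j + 1) - ν j)
    have hln1 : ln F 0 (ν (j + 1)) = ln F 0 (ν j) + ln F (ν j) (ν (j + 1) - ν j) := by
      have := ln_add F 0 (ν j) (ν (j + 1) - ν j)
      rw [e1, zero_add] at this
      exact this
    rw [e1] at hdl
    refine ⟨hjB, ?_, ?_⟩
    · refine (h2.append harc).mono le_rfl ?_
      rw [hln1]
      push_cast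
      linarith
    · refine h3.trans ?_
      have hXS : ∀ y ∈ poly l j, y ∈ S := by
        apply poly_mem
        intro i hi p hp
        have hdist : dist (F (ν i)) (F (ν (i + 1))) ≤ c := by
          have := hFc i (by omega) (ν (i + 1) - ν i) le_rfl
          have hi1 := hν i (by omega)
          have e1 : ν i + (ν (i + 1) - ν i) = ν (i + 1) := by omega
          rwa [e1] at this
        exact hC.pts _ (hF _) _ (hF _) hdist _ (hl i (by omega)) p hp
      have hZ : Arc s (F (ν j + (ν (j + 1) - ν j))) (F 0) (sg F (ν (j + 1)) (ν B - ν (j + 1)))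
          (ln F (ν (j + 1)) (ν B - ν (j + 1))) := by
        rw [e1]
        have := sg_arc (s := s) F (ν B - ν (j + 1)) (ν (j + 1))
          (fun i _ => ((hFδ _).le.trans hδs))
        have e2 : ν (j + 1) + (ν B - ν (j + 1)) = ν B := by omega
        rw [e2, hclosed] at this
        exact this
      have hln2 : ln F 0 (ν B) = ln F 0 (ν (j + 1)) + ln F (ν (j + 1)) (ν B - ν (j + 1)) := by
        have := ln_add F 0 (ν (j + 1)) (ν B - ν (j + 1))
        have e2 : ν (j + 1) + (ν B - ν (j + 1)) = ν B := by omega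
        rw [e2, zero_add] at this
        exact this
      have hjBe : (j : ℝ) * e + e ≤ B * e := by
        have : ((j : ℝ) + 1) ≤ B := by exact_mod_cast hj
        nlinarith
      have hmain := arc_repl (r := r) (ℓ := ℓ) hC hRS hs0 hη hδ0 hδs he hc hr F hF (ν j)
        (ν (j + 1) - ν j) (by omega) (hFc j (by omega)) (fun i _ => hFδ _) h2 hZ hXS
        (hsgS _ _) (by linarith) (ν (j + 1) - ν j) 0 (by omega) (l j) (by
          rw [e1]; exact hl j (by omega))
      have e3 : sg F (ν j) (ν B - ν j) = sg F (ν j) (ν (j + 1) - ν j) ++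
          sg F (ν (j + 1)) (ν B - ν (j + 1)) := by
        have := sg_add F (ν j) (ν (j + 1) - ν j) (ν B - ν (j + 1))
        rw [e1] at this
        rw [← this]
        congr 1
        omega
      rw [e3, ← List.append_assoc]
      have e4 : poly l (j + 1) ++ sg F (ν (j + 1)) (ν B - ν (j + 1)) =
          poly l j ++ l j ++ (sg F (ν j + (ν (j + 1) - ν j)) 0 ++
            sg F (ν (j + 1)) (ν B - ν (j + 1))) := by
        simp [poly, sg]
      rw [e4]
      exact hmain

/-! ### approximate midpoints -/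

lemma mid_of_path {y z : M} {δ : ℝ} (g : ℝ → M) (hg : ContinuousOn g (Set.Icc 0 1)) (h0 : g 0 = y)
    (h1 : g 1 = z) (hδ : 0 < δ)
    (hv : eVariationOn g (Set.Icc 0 1) ≤ ENNReal.ofReal (dist y z + δ)) :
    ∃ m, dist y m ≤ dist y z / 2 + δ ∧ dist m z ≤ dist y z / 2 + δ := by
  have hcont : ContinuousOn (fun t => dist y (g t) - dist (g t) z) (Set.Icc 0 1) :=
    (continuous_dist.comp_continuousOn (continuousOn_const.prodMk hg)).sub
      (continuous_dist.comp_continuousOn (hg.prodMk continuousOn_const))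
  have hyz := dist_nonneg (x := y) (y := z)
  have hmem : (0 : ℝ) ∈ Set.Icc (dist y (g 0) - dist (g 0) z) (dist y (g 1) - dist (g 1) z) := by
    rw [h0, h1, dist_self, dist_self]
    constructor <;> linarith
  obtain ⟨t, ht, ht0⟩ := intermediate_value_Icc (zero_le_one' ℝ) hcont hmem
  have hsum : dist y (g t) + dist (g t) z ≤ dist y z + δ := by
    set u : ℕ → ℝ := fun i => if i = 0 then 0 else if i = 1 then t else 1 with hu
    have hmono : Monotone u := by
      apply monotone_nat_of_le_succ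
      intro i
      rcases i with _ | _ | i
      · simpa [hu] using ht.1
      · simpa [hu] using ht.2
      · simp [hu]
    have hm : ∀ i, u i ∈ Set.Icc (0 : ℝ) 1 := by
      intro i
      rcases i with _ | _ | i
      · simp [hu]
      · simpa [hu] using ht
      · simp [hu]
    have h2 := eVariationOn.sum_le (f := g) (n := 2) hmono hm
    rw [Finset.sum_range_succ, Finset.sum_range_one] at h2
    have h3 := h2.trans hv
    have e0 : u 0 = 0 := rfl
    have e1 : u 1 = t := rfl
    have e2 : u 2 = 1 := rfl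
    simp only [zero_add, e0, e1] at h3
    rw [show (1 + 1 : ℕ) = 2 from rfl, e2, h0, h1, edist_dist, edist_dist,
      ← ENNReal.ofReal_add dist_nonneg dist_nonneg,
      ENNReal.ofReal_le_ofReal_iff (by linarith)] at h3
    rw [dist_comm y (g t), dist_comm (g t) z]
    exact h3
  have ht0' : dist y (g t) - dist (g t) z = 0 := ht0
  exact ⟨g t, by linarith, by linarith⟩

end Pool.Agent.TH317.CC.H480S

namespace Pool.Agent.TH317.CC

open Pool.Agent.TH317.CC.H370A Pool.Agent.TH317.CC.H480S

theorem chain_of_contrLt {M : Type u} [MetricSpace M] [LocallyCompactSpace M] (hL : LocLen M)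
    (hU : LocUM M) (α : C(UnitAddCircle, M)) (L : ℝ) (h : ContrLt α L) :
    ∃ L1 < L, ∃ K, IsCompact K ∧ K.Nonempty ∧ ∀ s > 0, ∃ N₀, ∀ N ≥ N₀,
      PContr s L1 K (sample α N) := by
  obtain ⟨H, hH0, ⟨c0, hHc⟩, hHL⟩ := h
  set R : Set M := Set.range H with hRdef
  have hR : IsCompact R := isCompact_range H.continuous
  have hHR : ∀ p, H p ∈ R := fun p => ⟨p, rfl⟩
  obtain ⟨K', hK', hRK⟩ := exists_compact_superset hR
  obtain ⟨ρ, hρ, hρK⟩ := hR.exists_thickening_subset_open isOpen_interior hRK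
  obtain ⟨r₁, hr₁, hnear⟩ := nearArc_of_locLen hL K' hK'
  obtain ⟨r₀, hr₀, hum⟩ := hU R hR
  have hRS : R ⊆ K' := hRK.trans interior_subset
  obtain ⟨ρ₁, hρ₁, h1ρ, h1r₁, h1r₀⟩ : ∃ ρ₁ > 0, ρ₁ ≤ ρ ∧ ρ₁ ≤ r₁ ∧ ρ₁ ≤ r₀ :=
    ⟨min ρ (min r₁ r₀), lt_min hρ (lt_min hr₁ hr₀), min_le_left _ _,
      (min_le_right _ _).trans (min_le_left _ _), (min_le_right _ _).trans (min_le_right _ _)⟩
  have hball : ∀ x ∈ R, Metric.ball x ρ₁ ⊆ K' := by
    intro x hx y hy
    apply interior_subset
    apply hρK
    rw [Metric.mem_thickening_iff]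
    exact ⟨x, hx, lt_of_lt_of_le hy h1ρ⟩
  have hmid : ∀ y ∈ K', ∀ z : M, dist y z < ρ₁ → ∀ δ > 0, ∃ m, dist y m ≤ dist y z / 2 + δ ∧
      dist m z ≤ dist y z / 2 + δ := by
    intro y hy z hyz δ hδ
    obtain ⟨g, hg, hg0, hg1, hgv⟩ := hnear y hy z (by linarith) δ hδ 0 1 one_pos
    exact mid_of_path g hg hg0 hg1 hδ hgv
  set c : ℝ := ρ₁ / 4 with hcdef
  have hc : 0 < c := by positivity
  have hc4 : 4 * c = ρ₁ := by rw [hcdef]; ring
  have huc : UniformContinuous H := CompactSpace.uniformContinuous_of_continuous H.continuous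
  obtain ⟨δc, hδc, hdc⟩ := Metric.uniformContinuous_iff.mp huc c hc
  obtain ⟨B, hB⟩ := exists_nat_gt (2 / δc)
  have hB0 : (0 : ℝ) < B := lt_trans (by positivity) hB
  have hB1 : 1 ≤ B := by exact_mod_cast hB0
  have hBδ : 2 / (B : ℝ) < δc := by
    rw [div_lt_iff₀ hδc] at hB
    rw [div_lt_iff₀ hB0]
    linarith
  -- the lengths of the coarse polygons
  set D : unitInterval → ℝ := fun t => ∑ j ∈ Finset.range B,
    dist (H (t, (((j : ℝ) / B : ℝ) : UnitAddCircle)))
      (H (t, ((((j + 1 : ℕ) : ℝ) / B : ℝ) : UnitAddCircle))) with hD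
  have hDc : Continuous D := by
    refine continuous_finsetSum _ (fun j _ => ?_)
    exact (H.continuous.comp (continuous_id.prodMk continuous_const)).dist
      (H.continuous.comp (continuous_id.prodMk continuous_const))
  have hlt : ∀ t, (clen (fun x => H (t, x))).toReal < L := by
    intro t
    exact ENNReal.toReal_lt_of_lt_ofReal (hHL t)
  have hrow : ∀ (t : unitInterval) (B' : ℕ), 1 ≤ B' →
      chl (cl (row H t B')) ≤ (clen (fun x => H (t, x))).toReal := by
    intro t B' hB'
    refine row_length_le H t hB' ENNReal.toReal_nonneg (le_of_eq ?_)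
    exact (ENNReal.ofReal_toReal (ne_top_of_lt (hHL t))).symm
  have hDrow : ∀ t, D t = chl (cl (row H t B)) := by
    intro t
    unfold row
    rw [cl_range _ B hB1 (closes H t hB1), chl_range]
  obtain ⟨tm, -, htm⟩ := isCompact_univ.exists_isMaxOn Set.univ_nonempty hDc.continuousOn
  set Lm : ℝ := max (D tm) (clen (fun x => H (0, x))).toReal with hLm
  have hLmL : Lm < L := by
    apply max_lt
    · rw [hDrow]
      exact lt_of_le_of_lt (hrow tm B hB1) (hlt tm)
    · exact hlt 0
  have hDle : ∀ t, D t ≤ Lm := fun t => (htm (Set.mem_univ t)).trans (le_max_left _ _)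
  set L1 : ℝ := (Lm + L) / 2 with hL1
  obtain ⟨μ, hμ, hμ1⟩ : ∃ μ > 0, L1 = Lm + μ := ⟨(L - Lm) / 2, by linarith, by rw [hL1]; ring⟩
  refine ⟨L1, by rw [hL1]; linarith, K', hK', ⟨H (0, 0), hRS (hHR _)⟩, ?_⟩
  intro s hs
  obtain ⟨k, hk⟩ := exists_pow_lt_of_lt_one (show 0 < s / (8 * c) by positivity)
    (show (1 / 2 : ℝ) < 1 by norm_num)
  have h2k : (0 : ℝ) < 2 ^ k := by positivity
  have hck : c / 2 ^ k ≤ s / 8 := by
    rw [one_div, inv_pow, lt_div_iff₀ (by positivity)] at hk
    rw [div_le_iff₀ h2k]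
    have h3 : (2 ^ k : ℝ)⁻¹ * (8 * c) * 2 ^ k < s * 2 ^ k := mul_lt_mul_of_pos_right hk h2k
    have h4 : (2 ^ k : ℝ)⁻¹ * (8 * c) * 2 ^ k = 8 * c := by field_simp
    rw [h4] at h3
    linarith
  obtain ⟨n, hn⟩ : ∃ n : ℕ, n = 2 ^ k := ⟨_, rfl⟩
  have hn1 : 1 ≤ n := by rw [hn]; exact Nat.one_le_two_pow
  have hnR : (n : ℝ) = 2 ^ k := by rw [hn]; push_cast; rfl
  have hn0 : (1 : ℝ) ≤ n := by exact_mod_cast hn1
  -- the closeness
  obtain ⟨η, hη, hηs, hημ⟩ : ∃ η > 0, η ≤ s / 16 ∧ 2 * η * (B * n + n + 4) ≤ μ / 8 := by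
    refine ⟨min (s / 16) (μ / (16 * (B * n + n + 4))), lt_min (by positivity) (by positivity),
      min_le_left _ _, ?_⟩
    have h3 : min (s / 16) (μ / (16 * (B * n + n + 4))) ≤ μ / (16 * (B * n + n + 4)) :=
      min_le_right _ _
    have h4 : (0 : ℝ) < B * n + n + 4 := by positivity
    calc 2 * min (s / 16) (μ / (16 * (B * n + n + 4))) * (B * n + n + 4) ≤
        2 * (μ / (16 * (B * n + n + 4))) * (B * n + n + 4) := by
          apply mul_le_mul_of_nonneg_right _ h4.le
          linarith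
      _ = μ / 8 := by field_simp; norm_num
  obtain ⟨δ₀, hδ₀, hstab⟩ := Dy.stab hum k η hη
  -- the tolerance of the midpoints
  obtain ⟨δ, hδ, hδ1, hδ2, hδ3, hδ4⟩ : ∃ δ > 0, δ ≤ δ₀ ∧ 2 ^ (k + 1) * δ ≤ c ∧ δ ≤ s / 16 ∧
      B * (2 ^ (k + 1) * δ) ≤ μ / 8 := by
    have h2k1 : (0 : ℝ) < 2 ^ (k + 1) := by positivity
    refine ⟨min δ₀ (min (c / 2 ^ (k + 1)) (min (s / 16) (μ / (8 * B * 2 ^ (k + 1))))),
      lt_min hδ₀ (lt_min (by positivity) (lt_min (by positivity) (by positivity))),
      min_le_left _ _, ?_, ?_, ?_⟩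
    · have h3 : min δ₀ (min (c / 2 ^ (k + 1)) (min (s / 16) (μ / (8 * B * 2 ^ (k + 1))))) ≤
          c / 2 ^ (k + 1) := (min_le_right _ _).trans (min_le_left _ _)
      rw [le_div_iff₀ h2k1] at h3
      linarith
    · exact (min_le_right _ _).trans ((min_le_right _ _).trans (min_le_left _ _))
    · have h3 : min δ₀ (min (c / 2 ^ (k + 1)) (min (s / 16) (μ / (8 * B * 2 ^ (k + 1))))) ≤
          μ / (8 * B * 2 ^ (k + 1)) :=
        (min_le_right _ _).trans ((min_le_right _ _).trans (min_le_right _ _))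
      rw [le_div_iff₀ (by positivity)] at h3
      linarith
  set e : ℝ := 2 ^ (k + 1) * δ with he
  have he0 : 0 < e := by positivity
  have hδe : δ ≤ e := by
    have h3 : (1 : ℝ) ≤ 2 ^ (k + 1) := one_le_pow₀ (by norm_num)
    rw [he]
    nlinarith
  have hdist : ∀ y z : M, dist y z ≤ c → dist y z + e ≤ 2 * c := by
    intro y z h3
    linarith
  -- the system of chains
  have hC : Sys R K' c (s / 4) e η δ n (Dy δ k) := by
    refine ⟨hn1, ?_, ?_, ?_, ?_, ?_, ?_, ?_⟩
    · intro y hy z _ hyz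
      apply Dy.exists_of (hball y hy) hmid hδ k y z
      rw [dist_self]
      linarith
    · intro y z l hl
      exact Dy.head k y z l hl
    · intro y z l hl
      rw [hn]
      exact Dy.len k y z l hl
    · intro y hy z _ hyz l hl p hp
      apply hball y hy
      rw [Metric.mem_ball, dist_comm]
      have := Dy.pts hδ.le k y z l hl p hp
      linarith
    · intro y hy z _ hyz l hl
      refine (Dy.arc hδ.le k y z l hl).mono ?_ ?_
      · have h3 : dist y z / 2 ^ k ≤ c / 2 ^ k := div_le_div_of_nonneg_right hyz h2k.le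
        have h4 : 2 * δ * (1 - 1 / 2 ^ k) ≤ 2 * δ := by
          have : (0 : ℝ) < 1 / 2 ^ k := by positivity
          nlinarith
        linarith
      · rw [he, pow_succ]
        nlinarith
    · intro y hy z _ y' _ z' _ hyz hyz' hyy hzz l l' hl hl'
      have hδc' : δ ≤ c := hδe.trans (by rw [he]; exact hδ2)
      have h3 : ∀ p ∈ l, p ∈ Metric.ball y r₀ := by
        intro p hp
        rw [Metric.mem_ball, dist_comm]
        have := Dy.pts hδ.le k y z l hl p hp
        linarith
      have h4 : ∀ p ∈ l', p ∈ Metric.ball y r₀ := by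
        intro p hp
        rw [Metric.mem_ball, dist_comm]
        have h5 := Dy.pts hδ.le k y' z' l' hl' p hp
        have h6 := dist_triangle y y' p
        linarith
      refine hstab y hy y z y' z' l l' (Metric.mem_ball_self hr₀) ?_ ?_ ?_ h3 h4
        (Dy.mono hδ1 _ _ _ _ hl) (Dy.mono hδ1 _ _ _ _ hl') (by linarith) (by linarith)
      · rw [Metric.mem_ball, dist_comm]; linarith
      · rw [Metric.mem_ball, dist_comm]; linarith
      · rw [Metric.mem_ball, dist_comm]
        have h6 := dist_triangle y y' z'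
        linarith
    · intro y _
      rw [hn]
      exact Dy.const hδ.le y k
  have hs4 : 0 ≤ s / 4 := by linarith
  -- the time steps
  obtain ⟨δ₂, hδ₂, hd2⟩ := Metric.uniformContinuous_iff.mp huc δ hδ
  obtain ⟨A, hA⟩ := exists_nat_gt (1 / δ₂)
  have hA0 : (0 : ℝ) < A := lt_trans (by positivity) hA
  have hAδ : 1 / (A : ℝ) < δ₂ := by
    rw [div_lt_iff₀ hδ₂] at hA
    rw [div_lt_iff₀ hA0]
    linarith
  set tt : ℕ → unitInterval := fun i => Set.projIcc 0 1 zero_le_one ((i : ℝ) / A) with htt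
  have htt1 : ∀ i, dist (tt i) (tt (i + 1)) < δ₂ := by
    intro i
    have e1 : dist (tt i) (tt (i + 1)) = |((tt i : ℝ) - (tt (i + 1) : ℝ))| := rfl
    have e2 : |((tt i : ℝ) - (tt (i + 1) : ℝ))| ≤ |(i : ℝ) / A - ((i + 1 : ℕ) : ℝ) / A| :=
      Set.abs_projIcc_sub_projIcc _
    have e3 : |(i : ℝ) / A - ((i + 1 : ℕ) : ℝ) / A| = 1 / A := by
      push_cast
      rw [← sub_div, abs_div, abs_of_pos hA0]
      congr 1
      have : (i : ℝ) - (i + 1) = -1 := by ring
      rw [this]; norm_num
    rw [e1]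
    linarith
  have ht0 : tt 0 = 0 := by
    simp only [htt]
    apply Subtype.ext
    simp
  have htA : tt A = 1 := by
    simp only [htt]
    rw [div_self hA0.ne']
    apply Subtype.ext
    simp
  -- distances along the circle
  have hcirc : ∀ (t : unitInterval) (a b : ℝ), |a - b| < δc →
      dist (H (t, (a : UnitAddCircle))) (H (t, (b : UnitAddCircle))) < c := by
    intro t a b hab
    apply hdc
    rw [Prod.dist_eq]
    simp only [dist_self]
    exact max_lt hδc (lt_of_le_of_lt (dist_coe_le _ _) hab)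
  have hcirc2 : ∀ (t : unitInterval) (a b : ℝ), |a - b| < δ₂ →
      dist (H (t, (a : UnitAddCircle))) (H (t, (b : UnitAddCircle))) < δ := by
    intro t a b hab
    apply hd2
    rw [Prod.dist_eq]
    simp only [dist_self]
    exact max_lt hδ₂ (lt_of_le_of_lt (dist_coe_le _ _) hab)
  -- the coarse points
  set P : ℕ → ℕ → M := fun i j => H (tt i, (((j : ℝ) / B : ℝ) : UnitAddCircle)) with hP
  have hPR : ∀ i j, P i j ∈ R := fun i j => hHR _
  have hPc : ∀ i j, dist (P i j) (P i (j + 1)) ≤ c := by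
    intro i j
    apply le_of_lt
    apply hcirc
    have e3 : |(j : ℝ) / B - ((j + 1 : ℕ) : ℝ) / B| = 1 / B := by
      push_cast
      rw [← sub_div, abs_div, abs_of_pos hB0]
      congr 1
      have : (j : ℝ) - (j + 1) = -1 := by ring
      rw [this]; norm_num
    rw [e3]
    refine lt_of_le_of_lt ?_ hBδ
    apply div_le_div_of_nonneg_right (by norm_num) hB0.le
  have hPB : ∀ i, P i B = P i 0 := fun i => closes H (tt i) hB1
  have hex : ∀ i j, ∃ l, Dy δ k (P i j) (P i (j + 1)) l := fun i j =>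
    hC.ex _ (hPR i j) _ (hPR i (j + 1)) (hPc i j)
  choose lc hlc using hex
  have hQarc : ∀ i, Arc (s / 4) (P i 0) (P i 0) (poly (lc i) B) (Lm + B * e) := by
    intro i
    have h3 := poly_arc (s := s / 4) (P i) (lc i) (fun j => dist (P i j) (P i (j + 1)) + e) B
      (fun j _ => hC.arc _ (hPR i j) _ (hPR i (j + 1)) (hPc i j) _ (hlc i j))
    rw [hPB] at h3
    refine h3.mono le_rfl ?_
    rw [Finset.sum_add_distrib, Finset.sum_const, Finset.card_range, nsmul_eq_mul]
    have h4 : ∑ j ∈ Finset.range B, dist (P i j) (P i (j + 1)) ≤ Lm := hDle (tt i)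
    linarith
  have hlen : ∀ (l : ℕ → List M) (p q : ℕ → M), (∀ j, Dy δ k (p j) (q j) (l j)) →
      (poly l B).length = B * n := fun l p q hl => poly_len l n B (fun j _ => hC.len _ _ _ (hl j))
  have hQlen : ∀ i, (poly (lc i) B).length = B * n := fun i => hlen _ _ _ (hlc i)
  have hBn : 1 ≤ B * n := Nat.mul_pos hB1 hn1
  have hne_of : ∀ l : List M, l.length = B * n → l ≠ [] := by
    rintro l hl rfl
    rw [List.length_nil] at hl
    omega
  have hQS : ∀ i, ∀ y ∈ poly (lc i) B, y ∈ K' := by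
    intro i
    exact poly_mem _ _ (fun j _ p hp =>
      hC.pts _ (hPR i j) _ (hPR i (j + 1)) (hPc i j) _ (hlc i j) p hp)
  have hcast : ∀ l : List M, l.length = B * n → (l.length : ℝ) = B * n := by
    intro l hl
    rw [hl]; push_cast; ring
  have hstep : ∀ i, Cn s L1 K' (poly (lc i) B) (poly (lc (i + 1)) B) := by
    intro i
    refine repl_closed hη.le hs4 (by linarith) (hQarc i) (hne_of _ (hQlen i)) ?_ ?_ (hQS i)
      (hQS (i + 1))
    · apply poly_cls
      intro j _
      have hd : ∀ j, dist (P i j) (P (i + 1) j) < δ := by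
        intro j
        apply hd2
        rw [Prod.dist_eq]
        simp only [dist_self]
        exact max_lt (htt1 i) hδ₂
      exact hC.st _ (hPR i j) _ (hPR i (j + 1)) _ (hPR (i + 1) j) _ (hPR (i + 1) (j + 1))
        (hPc i j) (hPc (i + 1) j) (hd j) (hd (j + 1)) _ _ (hlc i j) (hlc (i + 1) j)
    · rw [hcast _ (hQlen i), hμ1]
      have h3 : 2 * η * (B * n + 2) ≤ 2 * η * (B * n + n + 4) :=
        mul_le_mul_of_nonneg_left (by linarith) (by linarith)
      linarith
  have hall : ∀ i, Cn s L1 K' (poly (lc 0) B) (poly (lc i) B) := by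
    intro i
    induction i with
    | zero => exact Cn.refl
    | succ i ih => exact ih.trans (hstep i)
  -- the last row
  have hPA : ∀ j, P A j = c0 := by
    intro j
    simp only [hP, htA]
    exact hHc _
  have hc0 : c0 ∈ R := ⟨(1, 0), hHc 0⟩
  have hlast : Cn s L1 K' (poly (lc A) B) (List.replicate (B * n) c0) := by
    refine repl_closed hη.le hs4 (by linarith) (hQarc A) (hne_of _ (hQlen A)) ?_ ?_ (hQS A)
      (fun y hy => by rw [List.eq_of_mem_replicate hy]; exact hRS hc0)
    · rw [← poly_const]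
      apply poly_cls
      intro j _
      have h3 := hlc A j
      rw [hPA, hPA] at h3
      exact hC.st _ hc0 _ hc0 _ hc0 _ hc0 (by simpa using hc.le) (by simpa using hc.le)
        (by simpa using hδ) (by simpa using hδ) _ _ h3 (hC.const _ hc0)
    · rw [hcast _ (hQlen A), hμ1]
      have h3 : 2 * η * (B * n + 2) ≤ 2 * η * (B * n + n + 4) :=
        mul_le_mul_of_nonneg_left (by linarith) (by linarith)
      linarith
  have hLm0 : 0 ≤ Lm := le_trans ENNReal.toReal_nonneg (le_max_right _ _)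
  have hend : Cn s L1 K' (poly (lc 0) B) [c0] := by
    refine (hall A).trans (hlast.trans ?_)
    have h3 := const_contr (r := s) (ℓ := L1) (S := K') (hRS hc0) hs.le (by linarith) (B * n - 1)
    rwa [Nat.sub_add_cancel hBn] at h3
  -- the start
  obtain ⟨N0, hN0⟩ := exists_nat_gt (1 / δ₂)
  refine ⟨N0 + B, fun N hN => ?_⟩
  have hNB : B ≤ N := by omega
  have hNpos : 1 ≤ N := by omega
  have hNR : (0 : ℝ) < N := by exact_mod_cast hNpos
  have hNδ : 1 / (N : ℝ) < δ₂ := by
    have h3 : 1 / δ₂ < N := lt_of_lt_of_le hN0 (by exact_mod_cast (by omega : N0 ≤ N))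
    rw [div_lt_iff₀ hδ₂] at h3
    rw [div_lt_iff₀ hNR]
    linarith
  set F : ℕ → M := fun i => H (0, (((i : ℝ) / N : ℝ) : UnitAddCircle)) with hF
  have hFR : ∀ i, F i ∈ R := fun i => hHR _
  have hsample : sample α N = sg F 0 N := by
    rw [sample_eq]
    unfold sg
    rw [← List.range_eq_range']
    apply List.map_congr_left
    intro i _
    exact (hH0 _).symm
  have hFδ : ∀ i, dist (F i) (F (i + 1)) < δ := by
    intro i
    apply hcirc2
    have e3 : |(i : ℝ) / N - ((i + 1 : ℕ) : ℝ) / N| = 1 / N := by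
      push_cast
      rw [← sub_div, abs_div, abs_of_pos hNR]
      congr 1
      have : (i : ℝ) - (i + 1) = -1 := by ring
      rw [this]; norm_num
    rw [e3]
    exact hNδ
  set ν : ℕ → ℕ := fun j => j * N / B with hν
  have hν0 : ν 0 = 0 := by simp [hν]
  have hνB : ν B = N := by
    simp only [hν]
    exact Nat.mul_div_cancel_left N (by omega)
  have hνlt : ∀ j < B, ν j < ν (j + 1) := by
    intro j _
    simp only [hν]
    have h3 : (j * N + B) / B = j * N / B + 1 := Nat.add_div_right _ (by omega)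
    have h4 : (j * N + B) / B ≤ (j + 1) * N / B := Nat.div_le_div_right (by nlinarith)
    omega
  have hνle : ∀ j : ℕ, (ν j : ℝ) / N ≤ j / B := by
    intro j
    rw [div_le_div_iff₀ hNR hB0]
    have h3 : ν j * B ≤ j * N := Nat.div_mul_le_self _ _
    exact_mod_cast h3
  have hνge : ∀ j : ℕ, (j : ℝ) / B ≤ (ν j : ℝ) / N + 1 / N := by
    intro j
    rw [← add_div, div_le_div_iff₀ hB0 hNR]
    have h3 : j * N < (ν j + 1) * B := by
      have := Nat.lt_mul_div_succ (j * N) (show 0 < B by omega)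
      simp only [hν]
      linarith
    exact_mod_cast h3.le
  have hFc : ∀ j < B, ∀ i ≤ ν (j + 1) - ν j, dist (F (ν j)) (F (ν j + i)) ≤ c := by
    intro j hj i hi
    apply le_of_lt
    apply hcirc
    have h3 := hνlt j hj
    have h4 : ((ν j + i : ℕ) : ℝ) ≤ ν (j + 1) := by exact_mod_cast (by omega : ν j + i ≤ ν (j + 1))
    have h5 : ((ν j + i : ℕ) : ℝ) / N ≤ ν (j + 1) / N := div_le_div_of_nonneg_right h4 hNR.le
    have h6 := hνle (j + 1)
    have h7 := hνge j
    have h8 : (1 : ℝ) / N ≤ 1 / B := by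
      apply one_div_le_one_div_of_le hB0
      exact_mod_cast hNB
    have h9 : ((j + 1 : ℕ) : ℝ) / B = j / B + 1 / B := by push_cast; ring
    have h10 : (ν j : ℝ) / N ≤ ((ν j + i : ℕ) : ℝ) / N := by
      apply div_le_div_of_nonneg_right _ hNR.le
      exact_mod_cast (by omega : ν j ≤ ν j + i)
    have h11 : 2 / (B : ℝ) = 1 / B + 1 / B := by ring
    rw [abs_sub_comm, abs_of_nonneg (by linarith)]
    rw [h9] at h6
    linarith
  have hclosed : F (ν B) = F 0 := by
    rw [hνB]
    exact closes H 0 hNpos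
  have hFlen : ln F 0 N ≤ Lm := by
    have h3 := hrow 0 N hNpos
    unfold row at h3
    rw [cl_range _ N hNpos (closes H 0 hNpos), chl_range] at h3
    have h4 : ln F 0 N = ∑ j ∈ Finset.range N,
        dist (H (0, (((j : ℝ) / N : ℝ) : UnitAddCircle)))
          (H (0, ((((j + 1 : ℕ) : ℝ) / N : ℝ) : UnitAddCircle))) := by
      unfold ln
      apply Finset.sum_congr rfl
      intro j _
      rw [zero_add]
    rw [h4]
    exact h3.trans (le_max_right _ _)
  have hex' : ∀ j, ∃ l, j < B → Dy δ k (F (ν j)) (F (ν (j + 1))) l := by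
    intro j
    by_cases hj : j < B
    · have h3 := hFc j hj (ν (j + 1) - ν j) le_rfl
      have h4 := hνlt j hj
      have e1 : ν j + (ν (j + 1) - ν j) = ν (j + 1) := by omega
      rw [e1] at h3
      obtain ⟨l, hl⟩ := hC.ex _ (hFR (ν j)) _ (hFR (ν (j + 1))) h3
      exact ⟨l, fun _ => hl⟩
    · exact ⟨[], fun h3 => absurd h3 hj⟩
  choose l' hl' using hex'
  have hmulti := multi (r := s) (ℓ := L1) hC hRS hs4 hη.le hδ (by linarith) he0.le hc.le
    (by linarith) F hFR ν B hν0 hνlt hFc hFδ hclosed l' hl' (by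
      rw [hνB, hμ1]
      have h3 : 2 * η * (n + 3) ≤ 2 * η * (B * n + n + 4) := by
        apply mul_le_mul_of_nonneg_left _ (by linarith)
        have : (0 : ℝ) ≤ B * n := by positivity
        linarith
      linarith) B le_rfl
  have hc1 : Cn s L1 K' (sample α N) (poly l' B) := by
    have h3 := hmulti.2.2
    rw [Nat.sub_self, hνB] at h3
    rw [hsample]
    have e1 : sg F N 0 = [] := rfl
    rw [e1, List.append_nil] at h3
    exact h3
  have hl'c : ∀ j < B, dist (F (ν j)) (F (ν (j + 1))) ≤ c := by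
    intro j hj
    have h3 := hFc j hj (ν (j + 1) - ν j) le_rfl
    have h4 := hνlt j hj
    have e1 : ν j + (ν (j + 1) - ν j) = ν (j + 1) := by omega
    rwa [e1] at h3
  have hl'len : (poly l' B).length = B * n :=
    poly_len l' n B (fun j hj => hC.len _ _ _ (hl' j hj))
  have hc2 : Cn s L1 K' (poly l' B) (poly (lc 0) B) := by
    have harc := hmulti.2.1
    rw [hclosed, hνB] at harc
    refine repl_closed hη.le hs4 (by linarith) harc (hne_of _ hl'len) ?_ ?_ ?_ (hQS 0)
    · apply poly_cls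
      intro j hj
      have hd : ∀ j, dist (F (ν j)) (P 0 j) < δ := by
        intro j
        simp only [hP, hF, ht0]
        apply hcirc2
        have h3 := hνle j
        have h4 := hνge j
        rw [abs_sub_comm, abs_of_nonneg (by linarith)]
        linarith
      exact hC.st _ (hFR (ν j)) _ (hFR (ν (j + 1))) _ (hPR 0 j) _ (hPR 0 (j + 1))
        (hl'c j hj) (hPc 0 j) (hd j) (hd (j + 1)) _ _ (hl' j hj) (hlc 0 j)
    · rw [hcast _ hl'len, hμ1]
      have h3 : 2 * η * (B * n + 2) ≤ 2 * η * (B * n + n + 4) :=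
        mul_le_mul_of_nonneg_left (by linarith) (by linarith)
      linarith
    · exact poly_mem _ _ (fun j hj p hp =>
        hC.pts _ (hFR _) _ (hFR _) (hl'c j hj) _ (hl' j hj) p hp)
  exact ⟨c0, (hc1.trans hc2).trans hend⟩

end Pool.Agent.TH317.CC
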